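import Pool.Agent.Lib.MP_496a9e_al.Final

/-!
# The Sobolev gap is uniformly bounded for `SL(2,ℝ)^r`

For every weight `w` on `SL(2,ℝ)^r` the Sobolev gaps of all Harish-Chandra modules (of any length)
are at most `r (N + 2)`, where `N ≥ 0` is any number such that `w(a_t) ≤ C exp(N (t_1 + ... + t_r))`
for the diagonal matrices `a_t`, `t_i ≥ 0`; and every weight has such an `N`.
-/

namespace Pool.Agent.Results.MP_496a9e_al.ProductsSL2

open Pool.Agent.SGap

universe u

/-- For every `r` and every weight `w` on `G = SL(2,ℝ)^r` there is `N ≥ 0` with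
`w(a_t) ≤ C exp(N Σ t_i)`, and for every such `N` and every Harish-Chandra module `V` of `G` the
Sobolev gap satisfies `s(V,w) ≤ r (N + 2)`. -/
theorem result (r : ℕ) (w : G r → ℝ) (hw : IsWeight w) :
    (∃ N : ℝ, 0 ≤ N ∧ Growth w N) ∧
    ∀ N : ℝ, 0 ≤ N → Growth w N →
      ∀ (V : Type u) [AddCommGroup V] [Module ℂ V] (M : GKModule r V), M.IsHC →
        gap M w ≤ ENNReal.ofReal (r * (N + 2)) :=
  ⟨exists_growth hw, fun _ hN hG _ _ _ _ hM => gap_le hM hw hN hG⟩

end Pool.Agent.Results.MP_496a9e_al.ProductsSL2
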